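import Mathlib
import Pool.Agent.R562.DN.Lp2

/-!
# Learning DNF formulas: convex programming relaxations

The consistency of a sample with a DNF formula, and the rejection of random samples. The
definitions of the relaxations are in `Pool/Agent/TH689/GXDefs.lean` and
`Pool/Agent/TH689/QXDefs.lean`, those of DNF formulas in `Pool/Agent/R562/DN/ConvDefs.lean`.
-/

set_option autoImplicit false

namespace Pool.Agent.Results.MP_cba12a_lc.ConvexPrograms

open Pool.Agent.TH689.GX Pool.Agent.TH689.QX Pool.Agent.R562.DN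

/-- 1. Let `1 ≤ l ≤ n` and `2 ^ (l - 1) ≤ s`. Let `P ω` be a randomized scheme of mixed-integer
convex programming relaxations of the problem to find a DNF formula with `s` terms which agrees
with a sample, with the probability `p ω` and with `2 ^ a * (c + (r + 1) * T + 1) * (D + 2) ≤ M`,
where `a` is the number of the binary variables, `c` and `r` are the numbers of the convex
constraints of dimension `D` which are common to all samples and which belong to a labelled
example. Then the probability that it is correct for a random parity of `l` variables and that,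
independently, it rejects `T` random examples with random labels with the error `δ`, is at most
`2 * T ^ 3 * M / (C(n, l) * δ ^ 2)`.

2. In particular let `log₂ s + 1 ≤ √n`. If a scheme with `2 T ³ M / δ ² ≤ n ^ (log₂ s / 4)` is
correct at all DNF formulas with `s` terms of width at most `⌊log₂ s⌋ + 1`, then it rejects at most
the fraction `n ^ (-log₂ s / 4)` of the samples.

3. Conversely, for all `n`, `s`, `w` there is a linear programming scheme with at most
`(2 n + 1) ^ w + 1` inequalities and one more for every labelled example which is correct at all DNF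
formulas with `s` terms of width at most `w`, and rejects all but the fraction
`((2 n + 1) ^ w + 1) / 2 ^ (T / (8 s))` of the samples, for every error `δ ≤ 1 / (4 s T)`. -/
theorem result :
    (∀ (n s l T : ℕ), 1 ≤ l → l ≤ n → 2 ^ (l - 1) ≤ s → 1 ≤ T → ∀ δ : ℝ, 0 < δ → δ < 1 →
      ∀ (Ω : Type) [Fintype Ω] (p : Ω → ℝ), (∀ ω, 0 ≤ p ω) → ∑ ω, p ω = 1 →
      ∀ (a c r D : Ω → ℕ) (M : ℝ),
        (∀ ω, (2 : ℝ) ^ a ω * (c ω + (r ω + 1) * T + 1) * (D ω + 2) ≤ M) →
      ∀ P : ∀ ω, Scheme (Formula s n) ((Fin n → Bool) × Bool) (a ω) (c ω) (r ω) (D ω),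
        ∑ ω, p ω * (parityRate (P ω) l * rejectRate (P ω) (Wrong value) T δ) ≤
          2 * T ^ 3 * M / (n.choose l * δ ^ 2)) ∧
    (∀ (n s T : ℕ), 2 ≤ s → Real.logb 2 s + 1 ≤ Real.sqrt n → 1 ≤ T → ∀ δ : ℝ, 0 < δ → δ < 1 →
      ∀ (a c r D : ℕ), 2 * T ^ 3 * ((2 : ℝ) ^ a * (c + (r + 1) * T + 1) * (D + 2)) / δ ^ 2 ≤
        (n : ℝ) ^ (Real.logb 2 s / 4) →
      ∀ P : Scheme (Formula s n) ((Fin n → Bool) × Bool) a c r D,
        (∀ x : Formula s n, (∀ t, (x t).card ≤ Nat.log 2 s + 1) →
          P.CorrectAt (Wrong value) x) →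
        rejectRate P (Wrong value) T δ ≤ (n : ℝ) ^ (-(Real.logb 2 s / 4))) ∧
    ∀ (n s w : ℕ), 1 ≤ s →
      ∃ (c : ℕ) (P : Scheme (Formula s n) ((Fin n → Bool) × Bool) 0 c 1 1),
        c ≤ (2 * n + 1) ^ w + 1 ∧
        (∀ x : Formula s n, (∀ t, (x t).card ≤ w) → P.CorrectAt (Wrong value) x) ∧
        ∀ (T : ℕ) (δ : ℝ), 1 ≤ T → 0 ≤ δ → 4 * s * T * δ ≤ 1 →
          1 - ((2 * n + 1) ^ w + 1) * (2 : ℝ) ^ (-((T : ℝ) / (8 * s))) ≤
            rejectRate P (Wrong value) T δ := by
  refine ⟨?_, ?_, fun n s w hs => lp_upper n s w hs⟩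
  · intro n s l T hl hln hs hT δ hδ0 hδ1 Ω _ p hp hp1 a c r D M hM P
    exact conv_lower hl hln hs hT hδ0 hδ1 Ω p hp hp1 a c r D M hM P
  · intro n s T hs hsn hT δ hδ0 hδ1 a c r D hM P hP
    exact conv_worst hs hsn hT hδ0 hδ1 hM P hP

end Pool.Agent.Results.MP_cba12a_lc.ConvexPrograms
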