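import Pool.Agent.R617.DF.Main

/-!
# Learning DNF formulas from uniform random examples: refutations with short formulas as lines

A learner that finds a DNF formula consistent with the examples whenever there is one must be able
to find out that random labels are not consistent with any small DNF formula. We consider proofs of
this fact: refutations of the statement that a labelled sample is consistent with a DNF formula with
`s` terms of `w` literals. The DNF formula is described by bits: for each literal its sign and the
binary name of its variable. The lines are ARBITRARY propositional formulas (of any depth) with
`O(log s · log n)` occurrences of the bits of the description, the inferences are arbitrary sound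
inferences from at most `a` earlier lines and at most `c · log s · log n` labelled examples, and the
refutations are dag-like without any restriction on their shape. The number `N` of examples may be
exponential.

Theorem. For almost every sample (all but a fraction `2 ^ (-n ^ c)` of the samples of random
points) and for ALL labels, each such refutation has at least `n ^ (c · log s)` lines. (There are
about `n ^ (s · log s)` DNF formulas in question, and the decision trees which verify one term at a
time show that `log s · log n` occurrences are enough to speak about one term.)

The known result on this problem in the starting files (`DnfRefutations`) has arbitrary lines from a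
set of `2 ^ (n ^ δ)` predicates, but only for refutations of treewidth `n ^ δ` and for polynomially
many examples.

Proof: parities of `⌊log₂ s⌋ + 1` variables, one from each of `⌊log₂ s⌋ + 1` groups, are DNF formulas
with `s` terms; each bit of their description is a constant or a bit of the name of one of these
variables, so the lines become formulas of at most the same size on the names. The rest is the
theorem of the starting file `Pool.Agent.H542R2.JU` on refutations for parities.
-/

set_option autoImplicit false

namespace Pool.Agent.Results.MP_cba12a_lc.FormulaLines

open Pool.Agent.R617.DF

open Classical in
/-- For all `C`, `a` there are `c > 0` and `n0` such that for `n = 2 ^ B ≥ n0` variables, `s ≥ 1`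
terms with `log s ≤ n ^ c`, of `w ≥ ⌊log s⌋ + 1` literals, and `N ≤ 2 ^ (n ^ c)` examples: all but a
fraction `2 ^ (-n ^ c)` of the samples `X` of `N` points of the cube have the following property.
For ALL labels: every refutation of the statement that the labelled sample is consistent with a DNF
formula with `s` terms of `w` literals, whose lines are formulas with at most
`C (⌊log s⌋ + 1) log n` occurrences of the bits of the description and whose inferences use at most
`a` earlier lines and at most `c log s log n` examples, has at least `n ^ (c log s)` lines. -/
theorem result (C a : ℕ) : ∃ c : ℝ, 0 < c ∧ ∃ n0 : ℕ, ∀ s w B n N : ℕ, n = 2 ^ B → n0 ≤ n →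
      1 ≤ s → Nat.log 2 s + 1 ≤ w → Real.logb 2 s ≤ (n : ℝ) ^ c →
      (N : ℝ) ≤ (2 : ℝ) ^ ((n : ℝ) ^ c) →
      ((Finset.univ.filter fun X : Fin N → Pt B =>
        ¬ ∀ (lab : Fin N → Bool) (u S : ℕ),
          (u : ℝ) ≤ c * (Real.logb 2 s * Real.logb 2 n) →
            Nonempty (Refutation s w X lab a u (C * ((Nat.log 2 s + 1) * B)) S) →
            (n : ℝ) ^ (c * Real.logb 2 s) ≤ S).card : ℝ) ≤
        (2 : ℝ) ^ (-(n : ℝ) ^ c) * Fintype.card (Fin N → Pt B) :=
  main C a

end Pool.Agent.Results.MP_cba12a_lc.FormulaLines
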