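import Mathlib
import Pool.Agent.R562.DN.Size

/-!
# Learning DNF formulas: statistics of few labels do not suffice

Learners and predictors which use the points of the examples (and the fresh point) in an arbitrary
way, but whose predictions are, in mean square approximately, polynomials of degree `D` in the
labels, with any number of terms and any real coefficients.
-/

set_option autoImplicit false

namespace Pool.Agent.Results.MP_cba12a_lc.LabelStatistics

open Pool.Agent.R562.DN Pool.Agent.H963J Pool.Agent.W964.Wd

/-- 1. Let `log₂ s + 1 ≤ √n` and `(N + 1) ^ D ≤ n ^ (log₂ s / 8)`. Let the predictions `p X y z` be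
polynomials of degree at most `D` in the labels `y`, for all points `X` and all fresh points `z`.
Then for some DNF formula with at most `s` gates their mean square error is at least
`1 - 4 n ^ (-log₂ s / 4)` (the trivial prediction `0` has the mean square error `1`). Every
randomized learner whose expected hypothesis has mean square distance at most `ζ` from `p` for all
DNF formulas with at most `s` gates has expected error at least
`1 / 2 - √ζ / 2 - (1 + √ζ) n ^ (-log₂ s / 8)` for some DNF formula with at most `s` gates.

2. For the parities of `l` variables, which are DNF formulas with `2 ^ (l - 1) + 1` gates, some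
polynomials of degree at most `D` in the labels have mean square error exactly
`(C(n, l) - 1) / C(N, D)`, and some learner has at most this distance from them and at most this
expected error. -/
theorem result :
    (∀ n s N D : ℕ, 2 ≤ s → Real.logb 2 s + 1 ≤ Real.sqrt n →
      ((N : ℝ) + 1) ^ D ≤ (n : ℝ) ^ (Real.logb 2 s / 8) →
      ∀ p : (Fin N → Fin n → Bool) → (Fin N → Bool) → (Fin n → Bool) → ℝ,
      (∀ X z, LabelDegree D (fun y => p X y z)) →
      (∃ f : (Fin n → Bool) → Bool, IsDnf s f ∧
        1 - 4 * (n : ℝ) ^ (-(Real.logb 2 s / 4)) ≤ mse f p) ∧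
      ∀ (L : Learner n N) (ζ : ℝ), 0 ≤ ζ →
        (∀ f : (Fin n → Bool) → Bool, IsDnf s f → L.dist f p ≤ ζ) →
        ∃ f : (Fin n → Bool) → Bool, IsDnf s f ∧
          1 / 2 - Real.sqrt ζ / 2 - (1 + Real.sqrt ζ) * (n : ℝ) ^ (-(Real.logb 2 s / 8)) ≤
            L.error f) ∧
    ∀ n l N D : ℕ, 1 ≤ l → 1 ≤ D → D ≤ N →
      ∃ (p : (Fin N → Fin n → Bool) → (Fin N → Bool) → (Fin n → Bool) → ℝ) (L : Learner n N),
        (∀ X z, LabelDegree D (fun y => p X y z)) ∧
        ∀ S : Finset (Fin n), S.card = l → IsDnf (2 ^ (l - 1) + 1) (parity S) ∧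
          mse (parity S) p = ((n.choose l : ℝ) - 1) / (N.choose D : ℝ) ∧
          L.dist (parity S) p ≤ ((n.choose l : ℝ) - 1) / (N.choose D : ℝ) ∧
          L.error (parity S) ≤ ((n.choose l : ℝ) - 1) / (N.choose D : ℝ) := by
  refine ⟨fun n s N D hs hsn hND p hp => label_main hs hsn hND p hp, ?_⟩
  intro n l N D hl hD hDN
  refine ⟨pred n l N D, roundL n l N D, fun X z => pred_degree n l N D X z, fun S hS => ?_⟩
  refine ⟨parity_dnf hS hl le_rfl, ?_, ?_, ?_⟩
  · rw [← tg_eq]
    exact pred_mse hD hDN hS
  · rw [← tg_eq]
    exact roundL_dist hD hDN hS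
  · rw [← tg_eq]
    exact roundL_error hD hDN hS

end Pool.Agent.Results.MP_cba12a_lc.LabelStatistics
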