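import Mathlib
import Pool.Agent.R562.DN.Bits2

/-!
# Learning DNF formulas: predictors of small degree in all bits

Predictors which are polynomials of degree `D` in all bits of the points of the examples, of their
labels and of the fresh point, and learners whose expected hypothesis is close to such polynomials.
-/

set_option autoImplicit false

namespace Pool.Agent.Results.MP_cba12a_lc.LowDegreePredictors

open Pool.Agent.R562.DN Pool.Agent.H963J Pool.Agent.W964.Wd

/-- 1. Let `log₂ s + 1 ≤ √n` and `D log (N + 1) ≤ (log₂ s) ^ 2 log n / 4`. Let the predictions `p`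
be a polynomial of total degree at most `D` in all bits of `N` labelled examples and of the fresh
point. Then for some DNF formula `f` with at most `s` gates the correlation of `p` with the label
of the fresh point is at most `n ^ (-log₂ s / 8)` times the `L²` norm of `p` for random labels,
and every randomized learner whose expected hypothesis has mean square distance at most `ζ` from
`p` for the target `f` has expected error at least `1 / 2 - √ζ / 2` minus one half of this.

2. For the parities of `l` variables, which are DNF formulas with `2 ^ (l - 1) + 1` gates, and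
`1 ≤ D ≤ N`, some polynomial of total degree `D (l + 1) + l`, with the square `C(n, l) / C(N, D)` of
the norm, has mean square error exactly `(C(n, l) - 1) / C(N, D)`, and some learner has at most this
distance from it and at most this expected error. -/
theorem result :
    (∀ n s N D : ℕ, 2 ≤ s → Real.logb 2 s + 1 ≤ Real.sqrt n →
      D * Real.log (N + 1) ≤ Real.logb 2 s ^ 2 * Real.log n / 4 →
      ∀ p : (Fin N → Fin n → Bool) → (Fin N → Bool) → (Fin n → Bool) → ℝ, BitDegree D p →
      ∃ f : (Fin n → Bool) → Bool, IsDnf s f ∧
        |corr f p| ≤ Real.sqrt (nullSq p) * (n : ℝ) ^ (-(Real.logb 2 s / 8)) ∧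
        ∀ (L : Learner n N) (ζ : ℝ), L.dist f p ≤ ζ →
          1 / 2 - Real.sqrt ζ / 2 -
            Real.sqrt (nullSq p) * (n : ℝ) ^ (-(Real.logb 2 s / 8)) / 2 ≤ L.error f) ∧
    ∀ n l N D : ℕ, 1 ≤ l → 1 ≤ D → D ≤ N →
      ∃ (p : (Fin N → Fin n → Bool) → (Fin N → Bool) → (Fin n → Bool) → ℝ) (L : Learner n N),
        BitDegree (D * (l + 1) + l) p ∧ nullSq p = (n.choose l : ℝ) / (N.choose D : ℝ) ∧
        ∀ S : Finset (Fin n), S.card = l → IsDnf (2 ^ (l - 1) + 1) (parity S) ∧
          mse (parity S) p = ((n.choose l : ℝ) - 1) / (N.choose D : ℝ) ∧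
          L.dist (parity S) p ≤ ((n.choose l : ℝ) - 1) / (N.choose D : ℝ) ∧
          L.error (parity S) ≤ ((n.choose l : ℝ) - 1) / (N.choose D : ℝ) := by
  refine ⟨fun n s N D hs hsn hND p hp => bits_main hs hsn hND p hp, ?_⟩
  intro n l N D hl hD hDN
  refine ⟨pred n l N D, roundL n l N D, pred_bits l D, pred_null hDN, fun S hS => ?_⟩
  refine ⟨parity_dnf hS hl le_rfl, ?_, ?_, ?_⟩
  · rw [← tg_eq]
    exact pred_mse hD hDN hS
  · rw [← tg_eq]
    exact roundL_dist hD hDN hS
  · rw [← tg_eq]
    exact roundL_error hD hDN hS

end Pool.Agent.Results.MP_cba12a_lc.LowDegreePredictors
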