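import Pool.Agent.R532.Ju4

/-!
# Samples labelled by DNF formulas and read-once tree tensor networks

A tree tensor network `Net K V Al W` (`Pool/Agent/TH700/PA/Defs.lean`) has leaves that read one
variable each (with a vector in `K ^ W` for each of its values); an inner node combines the vectors
of its two children by an arbitrary bilinear map. Its value is a linear form of the vector of the
root. The field `K` and the weights are arbitrary, so there may be cancellations. The tree and the
assignment of the variables to the leaves are arbitrary; if every right child is a leaf then this is a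
matrix product. For instance a (nondeterministic, parity or probabilistic) algorithm with `M` bits of
memory which reads every bit of the sample once, in any fixed order, gives a matrix product of bond
dimension `2 ^ M`. The bond dimension is `card W`.

The input is a sample of `N` examples with `m = k h` attributes and their labels, that is
`N (m + 1)` bits. Consider (random) networks which read every bit at most once and distinguish the
samples labelled by a DNF formula of size at most `s` from the samples for which no DNF formula of size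
at most `s` (more generally, no hypothesis of a given class `𝓗`) agrees with more than
`(1 / 2 + 1 / g) N` of the labels: the value is always zero for the latter and not zero with
probability at least `2 ^ (-μ)` for the former. We show that for `2 ^ k < s`, `k ≤ h` and
`N ≥ D m s` we have `m ^ k ≤ D (2 ^ μ dim) ^ D`, where `D` only depends on `g`. So for `s = m` the
dimension is at least `m ^ (c log m)`, and in this model no polynomial size is enough. The lower bound
holds for arbitrary classes `𝓗` of at most `2 ^ (N / (16 g ^ 2)) / h ^ k` hypotheses, for instance for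
circuits of any polynomial size and a larger sample.

The targets in the proof are parities of `k` attributes, one in each of `k` groups of `h` attributes,
which have DNF formulas of size `2 ^ k + 1`. In a mixture of `t` samples with different parities the
label of a row is either independent of the examples or it is the parity which belongs to the part of
the label; every hypothesis has small correlation with most of `t` different parities (Bessel's
inequality).
-/

set_option autoImplicit false

namespace Pool.Agent.Results.MP_cba12a_lc.TensorNetworks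

open Pool.Agent.R532.Ju

theorem result :
    (∀ g : ℕ, 1 ≤ g → ∃ D : ℕ, ∀ k h N μ s : ℕ, 1 ≤ h → D ≤ N → 2 ^ k < s →
      ∀ 𝓗 : Set ((At k h → Bool) → Bool), 𝓗.ncard * h ^ k ≤ 2 ^ (N / (16 * g ^ 2)) →
        ∀ F : Family {f | HasDNF s f} 𝓗 N g μ, ∃ ρ, h ^ k ≤ D * (2 ^ μ * F.dim ρ) ^ D) ∧
    (∀ g : ℕ, 1 ≤ g → ∃ D : ℕ, ∀ k h m N μ s : ℕ, 1 ≤ k → k ≤ h → m = k * h → 2 ^ k < s →
      D * (m * s) ≤ N →
        ∀ F : Family (k := k) (h := h) {f | HasDNF s f} {f | HasDNF s f} N g μ,
          ∃ ρ, m ^ k ≤ D * (2 ^ μ * F.dim ρ) ^ D) := by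
  have h1 : ∀ g : ℕ, 1 ≤ g → ∃ D : ℕ, ∀ k h N μ s : ℕ, 1 ≤ h → D ≤ N → 2 ^ k < s →
      ∀ 𝓗 : Set ((At k h → Bool) → Bool), 𝓗.ncard * h ^ k ≤ 2 ^ (N / (16 * g ^ 2)) →
        ∀ F : Family {f | HasDNF s f} 𝓗 N g μ, ∃ ρ, h ^ k ≤ D * (2 ^ μ * F.dim ρ) ^ D := by
    intro g hg
    obtain ⟨D, hD⟩ := lower_family g hg
    refine ⟨D, fun k h N μ s hh hN hs 𝓗 hH F => hD k h N μ hh hN _ 𝓗 (fun A => ?_) hH F⟩
    obtain ⟨T, hT1, hT2⟩ := parity_dnf A
    exact ⟨T, by omega, hT2⟩
  refine ⟨h1, fun g hg => ?_⟩
  obtain ⟨D, hD⟩ := h1 g hg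
  refine ⟨D ^ 2 + 2 * D + 48 * g ^ 2, fun k h m N μ s hk hkh hm hs hN F => ?_⟩
  have hh : 1 ≤ h := hk.trans hkh
  have hm1 : 1 ≤ m := by
    rw [hm]
    exact Nat.mul_pos hk hh
  have h2k : 1 ≤ 2 ^ k := Nat.one_le_two_pow
  have hms : 1 ≤ m * s := Nat.mul_pos hm1 (by omega)
  have hND : D ≤ N := by
    refine le_trans ?_ hN
    calc D ≤ (D ^ 2 + 2 * D + 48 * g ^ 2) * 1 := by nlinarith [Nat.zero_le (D ^ 2), Nat.zero_le (g ^ 2)]
      _ ≤ _ := Nat.mul_le_mul_left _ hms
  have hNE : 3 * (m * s) ≤ N / (16 * g ^ 2) := by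
    have hg2 : 1 ≤ g ^ 2 := Nat.one_le_pow _ _ hg
    rw [Nat.le_div_iff_mul_le (by omega)]
    calc 3 * (m * s) * (16 * g ^ 2) = 48 * g ^ 2 * (m * s) := by ring
      _ ≤ (D ^ 2 + 2 * D + 48 * g ^ 2) * (m * s) := Nat.mul_le_mul_right _ (by omega)
      _ ≤ N := hN
  have hcard : {f : (At k h → Bool) → Bool | HasDNF s f}.ncard * h ^ k ≤
      2 ^ (N / (16 * g ^ 2)) := by
    have e1 := card_dnf (k := k) (h := h) s (by rw [← hm]; exact hm1)
    rw [← hm] at e1
    have e2 : h ^ k ≤ 2 ^ (m * s) := by
      calc h ^ k ≤ (2 ^ h) ^ k := Nat.pow_le_pow_left Nat.lt_two_pow_self.le k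
        _ = 2 ^ m := by rw [← pow_mul, hm, mul_comm]
        _ ≤ 2 ^ (m * s) := Nat.pow_le_pow_right (by norm_num)
          (Nat.le_mul_of_pos_right _ (by omega))
    calc {f : (At k h → Bool) → Bool | HasDNF s f}.ncard * h ^ k ≤
        2 ^ (2 * m * s) * 2 ^ (m * s) := Nat.mul_le_mul e1 e2
      _ = 2 ^ (3 * (m * s)) := by
          rw [← pow_add]
          congr 1
          ring
      _ ≤ 2 ^ (N / (16 * g ^ 2)) := Nat.pow_le_pow_right (by norm_num) hNE
  obtain ⟨ρ, hρ⟩ := hD k h N μ s hh hND hs {f | HasDNF s f} hcard F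
  refine ⟨ρ, ?_⟩
  have hX : 1 ≤ 2 ^ μ * F.dim ρ ∨ 2 ^ μ * F.dim ρ = 0 := by omega
  rcases hX with hX | hX
  · calc m ^ k = (k * h) ^ k := by rw [hm]
      _ ≤ (h * h) ^ k := Nat.pow_le_pow_left (Nat.mul_le_mul_right _ hkh) _
      _ = h ^ k * h ^ k := by rw [← mul_pow]
      _ ≤ (D * (2 ^ μ * F.dim ρ) ^ D) * (D * (2 ^ μ * F.dim ρ) ^ D) := Nat.mul_le_mul hρ hρ
      _ = D ^ 2 * (2 ^ μ * F.dim ρ) ^ (2 * D) := by ring
      _ ≤ _ := Nat.mul_le_mul (by omega) (Nat.pow_le_pow_right hX (by omega))
  · exfalso
    rw [hX] at hρ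
    have h2 : 1 ≤ h ^ k := Nat.one_le_pow _ _ hh
    rcases Nat.eq_zero_or_pos D with h3 | h3
    · rw [h3] at hρ
      omega
    · rw [zero_pow (by omega), mul_zero] at hρ
      omega

end Pool.Agent.Results.MP_cba12a_lc.TensorNetworks
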